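import Pool.Agent.H15.Hart.Pull

set_option linter.unusedSectionVars false

/-!
# Generators and coordinates (MP_9a3fdb_ag, job HART-J3)
-/

open MvPolynomial

namespace H15.Hart

open H89.Hart

/-- Coordinates on a subspace of `ℂ^ι`, chosen among the coordinate functions. -/
theorem exists_coords {ι : Type} [Fintype ι] [DecidableEq ι] (W : Submodule ℂ (ι → ℂ)) :
    ∃ (κ : Type) (_ : Fintype κ) (_ : DecidableEq κ) (a : κ → ι) (B : (κ → ℂ) →ₗ[ℂ] (ι → ℂ)),
      (∀ z, B z ∈ W) ∧ (∀ z k, B z (a k) = z k) ∧ (∀ y ∈ W, B (fun k => y (a k)) = y) := by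
  classical
  let φ : ι → Module.Dual ℂ W := fun i => (LinearMap.proj i).domRestrict W
  obtain ⟨κ, a, ha, hspan, hli⟩ := exists_linearIndependent' ℂ φ
  have : Finite κ := Finite.of_injective a ha
  have := Fintype.ofFinite κ
  let E : W →ₗ[ℂ] (κ → ℂ) := LinearMap.pi (fun k => φ (a k))
  have hE : ∀ (y : W) k, E y k = (y : ι → ℂ) (a k) := fun _ _ => rfl
  have hinj : Function.Injective E := by
    rw [← LinearMap.ker_eq_bot, LinearMap.ker_eq_bot']
    intro y hy
    have h1 : ∀ ψ ∈ Submodule.span ℂ (Set.range φ), ψ y = 0 := by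
      rw [← hspan]
      intro ψ hψ
      induction hψ using Submodule.span_induction with
      | mem ψ hψ =>
        obtain ⟨k, rfl⟩ := hψ
        exact congrFun hy k
      | zero => rfl
      | add ψ ψ' _ _ h h' => rw [LinearMap.add_apply, h, h', add_zero]
      | smul c ψ _ h => rw [LinearMap.smul_apply, h, smul_zero]
    apply Subtype.ext
    funext i
    exact h1 (φ i) (Submodule.subset_span ⟨i, rfl⟩)
  have hsurj : Function.Surjective E := by
    rw [← LinearMap.dualMap_injective_iff, ← LinearMap.ker_eq_bot, LinearMap.ker_eq_bot']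
    intro ψ hψ
    have h1 : ∑ k, ψ (Pi.single k 1) • (φ ∘ a) k = 0 := by
      ext y
      have h2 : ψ (E y) = 0 := by
        have := LinearMap.congr_fun hψ y
        exact this
      have h3 : E y = ∑ k, (E y k) • (Pi.single k (1 : ℂ) : κ → ℂ) := by
        funext t
        simp [Pi.single_apply]
      rw [h3, map_sum] at h2
      simp only [map_smul, smul_eq_mul] at h2
      simp only [LinearMap.sum_apply, LinearMap.smul_apply, Function.comp_apply, smul_eq_mul,
        LinearMap.zero_apply]
      rw [← h2]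
      exact Finset.sum_congr rfl fun k _ => mul_comm _ _
    have h2 := Fintype.linearIndependent_iff.1 hli _ h1
    apply LinearMap.pi_ext'
    intro k
    ext
    simpa using h2 k
  let e : W ≃ₗ[ℂ] (κ → ℂ) := LinearEquiv.ofBijective E ⟨hinj, hsurj⟩
  refine ⟨κ, inferInstance, inferInstance, a, W.subtype ∘ₗ e.symm.toLinearMap,
    fun z => (e.symm z).2, ?_, ?_⟩
  · intro z k
    have h1 : e (e.symm z) = z := e.apply_symm_apply z
    exact congrFun h1 k
  · intro y hy
    have h1 : e.symm (e ⟨y, hy⟩) = ⟨y, hy⟩ := e.symm_apply_apply _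
    exact congrArg Subtype.val h1

variable {ι κ : Type*} [Fintype ι] [DecidableEq ι] [Fintype κ] [DecidableEq κ]

theorem dim_mvPolynomial : ringKrullDim (MvPolynomial κ ℂ) = (Fintype.card κ : WithBot ℕ∞) := by
  rw [MvPolynomial.ringKrullDim_of_isNoetherianRing, ringKrullDim_eq_zero_of_field, zero_add,
    Nat.card_eq_fintype_card]

/-- Differentials of the elements of an ideal at a point of the cone. -/
theorem N_span {r : ℕ} {I : Ideal (MvPolynomial ι ℂ)} {F : Fin r → MvPolynomial ι ℂ}
    (hF : I = Ideal.span (Set.range F)) {x : ι → ℂ} (hx : x ∈ cone I) :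
    N I x = Submodule.span ℂ (Set.range fun i => dif (F i) x) := by
  apply le_antisymm
  · intro v hv
    obtain ⟨f, hf, rfl⟩ := mem_N.1 hv
    rw [hF] at hf
    have hx' : ∀ i, eval x (F i) = 0 := fun i =>
      hx _ (by rw [hF]; exact Ideal.subset_span ⟨i, rfl⟩)
    have h1 : dif f x ∈ Submodule.span ℂ (Set.range fun i => dif (F i) x) ∧ eval x f = 0 := by
      clear hv
      induction hf using Submodule.span_induction with
      | mem f hf =>
        obtain ⟨i, rfl⟩ := hf
        exact ⟨Submodule.subset_span ⟨i, rfl⟩, hx' i⟩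
      | zero =>
        refine ⟨?_, map_zero _⟩
        have : dif (0 : MvPolynomial ι ℂ) x = 0 := by funext i; simp [dif]
        rw [this]
        exact Submodule.zero_mem _
      | add f g _ _ h h' =>
        rw [dif_add, map_add, h.2, h'.2]
        exact ⟨Submodule.add_mem _ h.1 h'.1, add_zero _⟩
      | smul c f _ h =>
        rw [smul_eq_mul, dif_mul, map_mul, h.2, zero_smul, add_zero, mul_zero]
        exact ⟨Submodule.smul_mem _ _ h.1, rfl⟩
    exact h1.1
  · rw [Submodule.span_le]
    rintro _ ⟨i, rfl⟩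
    exact mem_N.2 ⟨F i, by rw [hF]; exact Ideal.subset_span ⟨i, rfl⟩, rfl⟩

/-- A homogeneous ideal generated by one element is generated by a homogeneous element. -/
theorem exists_homog_gen {P : Ideal (MvPolynomial κ ℂ)}
    (hh : ∀ f ∈ P, ∀ d, homogeneousComponent d f ∈ P) {F : MvPolynomial κ ℂ} (hF0 : F ≠ 0)
    (hF : P = Ideal.span {F}) :
    ∃ G : MvPolynomial κ ℂ, (∃ d, G.IsHomogeneous d) ∧ P = Ideal.span {G} := by
  have hFP : F ∈ P := by rw [hF]; exact Ideal.subset_span rfl
  set d := F.totalDegree with hd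
  set G := homogeneousComponent d F with hG
  have hG0 : G ≠ 0 := by
    obtain ⟨m, hm, hmd⟩ := Finset.exists_mem_eq_sup F.support (support_nonempty.2 hF0)
      (fun s => s.sum fun _ e => e)
    intro h0
    have h1 : coeff m G = coeff m F := by
      rw [hG, coeff_homogeneousComponent, if_pos]
      rw [hd, MvPolynomial.totalDegree, hmd, Finsupp.degree_apply, Finsupp.sum]
    rw [h0, coeff_zero] at h1
    exact mem_support_iff.1 hm h1.symm
  have hGP : G ∈ P := hh F hFP d
  have hGd : G.totalDegree = d := (homogeneousComponent_isHomogeneous d F).totalDegree hG0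
  refine ⟨G, ⟨d, homogeneousComponent_isHomogeneous d F⟩, ?_⟩
  rw [hF] at hGP
  obtain ⟨h, hh'⟩ := Ideal.mem_span_singleton.1 hGP
  have hh0 : h ≠ 0 := by
    rintro rfl
    exact hG0 (by rw [hh', mul_zero])
  have hdeg : F.totalDegree + h.totalDegree = d := by
    rw [← totalDegree_mul_of_isDomain hF0 hh0, ← hh', hGd]
  have hht : h.totalDegree = 0 := by omega
  have hu : IsUnit h := by
    rw [totalDegree_eq_zero_iff_eq_C.1 hht]
    refine IsUnit.map C (isUnit_iff_ne_zero.2 fun h0 => hh0 ?_)
    rw [totalDegree_eq_zero_iff_eq_C.1 hht, h0, map_zero]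
  rw [hF, hh', Ideal.span_singleton_mul_right_unit hu]

theorem dim_lt_of_mem {R : Type*} [CommRing R] [IsDomain R] {P : Ideal R} {g : R} (hg : g ∈ P)
    (hg0 : g ≠ 0) : ringKrullDim (R ⧸ P) + 1 ≤ ringKrullDim R :=
  ringKrullDim_succ_le_of_surjective (Ideal.Quotient.mk P) Ideal.Quotient.mk_surjective
    (mem_nonZeroDivisors_of_ne_zero hg0) (Ideal.Quotient.eq_zero_iff_mem.2 hg)

theorem dim_lt_of_lt {R : Type*} [CommRing R] {Q P : Ideal R} (hQ : Q.IsPrime) (hQP : Q < P) :
    ringKrullDim (R ⧸ P) + 1 ≤ ringKrullDim (R ⧸ Q) := by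
  obtain ⟨g, hgP, hgQ⟩ := SetLike.exists_of_lt hQP
  have := Ideal.Quotient.isDomain Q
  refine ringKrullDim_succ_le_of_surjective (Ideal.Quotient.factor hQP.le)
    (Ideal.Quotient.factor_surjective hQP.le) (r := Ideal.Quotient.mk Q g)
    (mem_nonZeroDivisors_of_ne_zero fun h => hgQ (Ideal.Quotient.eq_zero_iff_mem.1 h)) ?_
  rw [Ideal.Quotient.factor_mk]
  exact Ideal.Quotient.eq_zero_iff_mem.2 hgP

theorem exists_nat_of_add {D : WithBot ℕ∞} {r n : ℕ} (h : D + r = n) : ∃ d : ℕ, D = d := by
  induction D with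
  | bot => simp at h
  | coe D =>
    induction D with
    | top =>
      exfalso
      have h' : ((⊤ : ℕ∞) : WithBot ℕ∞) + (r : ℕ∞) = (n : ℕ∞) := h
      rw [← WithBot.coe_add, WithBot.coe_inj, top_add] at h'
      exact absurd h'.symm (ENat.natCast_ne_top n)
    | coe d => exact ⟨d, rfl⟩

/-- Generators of a homogeneous prime ideal of codimension at most one. -/
theorem exists_gens {P : Ideal (MvPolynomial κ ℂ)} (hP : P.IsPrime)
    (hh : ∀ f ∈ P, ∀ d, homogeneousComponent d f ∈ P) {r : ℕ} (hr : r ≤ 1)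
    (hdim : ringKrullDim (MvPolynomial κ ℂ ⧸ P) + r = Fintype.card κ) :
    ∃ F : Fin r → MvPolynomial κ ℂ, (∀ i, ∃ d, (F i).IsHomogeneous d) ∧
      P = Ideal.span (Set.range F) := by
  obtain ⟨D, hD⟩ := exists_nat_of_add hdim
  rw [hD] at hdim
  have hdim' : D + r = Fintype.card κ := by exact_mod_cast hdim
  interval_cases r
  · refine ⟨Fin.elim0, fun i => i.elim0, ?_⟩
    rw [Set.range_eq_empty, Ideal.span_empty]
    by_contra hne
    obtain ⟨g, hg, hg0⟩ := Submodule.exists_mem_ne_zero_of_ne_bot hne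
    have h1 := dim_lt_of_mem hg hg0
    rw [hD, dim_mvPolynomial] at h1
    have h2 : D + 1 ≤ Fintype.card κ := by exact_mod_cast h1
    omega
  · have hne : P ≠ ⊥ := by
      rintro rfl
      have h1 : ringKrullDim (MvPolynomial κ ℂ ⧸ (⊥ : Ideal (MvPolynomial κ ℂ))) =
          ringKrullDim (MvPolynomial κ ℂ) :=
        ringKrullDim_eq_of_ringEquiv (RingEquiv.quotientBot _)
      rw [hD, dim_mvPolynomial] at h1
      have h2 : D = Fintype.card κ := by exact_mod_cast h1
      omega
    obtain ⟨f, hfP, hf⟩ := hP.exists_mem_prime_of_ne_bot hne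
    have hPf : P = Ideal.span {f} := by
      by_contra hne'
      have hlt : Ideal.span {f} < P := lt_of_le_of_ne
        ((Ideal.span_singleton_le_iff_mem _).2 hfP) (Ne.symm hne')
      have hprime : (Ideal.span {f}).IsPrime := (Ideal.span_singleton_prime hf.ne_zero).2 hf
      have h1 := dim_lt_of_lt hprime hlt
      have h2 := dim_lt_of_mem (P := Ideal.span {f}) (Ideal.subset_span rfl) hf.ne_zero
      have h3 : ringKrullDim (MvPolynomial κ ℂ ⧸ P) + 1 + 1 ≤ ringKrullDim (MvPolynomial κ ℂ) :=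
        le_trans (add_le_add_left h1 1) h2
      rw [hD, dim_mvPolynomial] at h3
      have h4 : D + 1 + 1 ≤ Fintype.card κ := by exact_mod_cast h3
      omega
    obtain ⟨G, hG, hPG⟩ := exists_homog_gen hh hf.ne_zero hPf
    refine ⟨fun _ => G, fun _ => hG, ?_⟩
    rw [Set.range_const]
    exact hPG

end H15.Hart
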