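import Pool.Agent.H15.Hart.Sub

set_option linter.unusedSectionVars false

/-!
# Passing to the linear span (MP_9a3fdb_ag, job HART-J3)
-/

open MvPolynomial

namespace H15.Hart

open H89.Hart

variable {ι κ : Type*} [Fintype ι] [DecidableEq ι] [Fintype κ] [DecidableEq κ]

/-- A prime ideal is the vanishing ideal of its cone. -/
theorem mem_of_cone {I : Ideal (MvPolynomial ι ℂ)} (hI : I.IsPrime) {f : MvPolynomial ι ℂ}
    (hf : ∀ x ∈ cone I, eval x f = 0) : f ∈ I := by
  have h1 := MvPolynomial.IsPrime.vanishingIdeal_zeroLocus (K := ℂ) I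
  rw [← h1, mem_vanishingIdeal_iff]
  intro x hx
  rw [MvPolynomial.aeval_eq_eval]
  exact hf x (fun g hg => by
    have := mem_zeroLocus_iff.1 hx g hg
    rwa [MvPolynomial.aeval_eq_eval] at this)

theorem eval_smul_homog {f : MvPolynomial ι ℂ} {d : ℕ} (hf : f.IsHomogeneous d) (c : ℂ)
    (x : ι → ℂ) : eval (c • x) f = c ^ d * eval x f := by
  rw [eval_eq, eval_eq, Finset.mul_sum]
  refine Finset.sum_congr rfl fun m hm => ?_
  have hd : m.degree = d := by
    have := hf (mem_support_iff.1 hm)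
    rw [Finsupp.degree_eq_weight_one]
    exact this
  simp only [Pi.smul_apply, smul_eq_mul, mul_pow, Finset.prod_mul_distrib,
    Finset.prod_pow_eq_pow_sum]
  rw [← hd, Finsupp.degree_apply]
  ring

/-- Scaling invariance of the cone. -/
theorem smul_mem_cone {I : Ideal (MvPolynomial ι ℂ)}
    (hh : ∀ f ∈ I, ∀ d, homogeneousComponent d f ∈ I) {x : ι → ℂ} (hx : x ∈ cone I) (c : ℂ) :
    c • x ∈ cone I := by
  intro f hf
  rw [← sum_homogeneousComponent f, map_sum]
  refine Finset.sum_eq_zero fun d _ => ?_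
  rw [eval_smul_homog (homogeneousComponent_isHomogeneous d f), hx _ (hh f hf d), mul_zero]

theorem homogeneousComponent_sub (M : (ι → ℂ) →ₗ[ℂ] (κ → ℂ)) (d : ℕ) (g : MvPolynomial κ ℂ) :
    homogeneousComponent d (sub M g) = sub M (homogeneousComponent d g) := by
  conv_lhs => rw [← sum_homogeneousComponent g, map_sum, map_sum]
  have h1 : ∀ i, homogeneousComponent d (sub M (homogeneousComponent i g)) =
      if d = i then sub M (homogeneousComponent i g) else 0 := fun i =>
    homogeneousComponent_of_mem (sub_homog M (homogeneousComponent_isHomogeneous i g))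
  simp only [h1]
  rw [Finset.sum_ite_eq]
  split_ifs with h
  · rfl
  · rw [homogeneousComponent_eq_zero _ _ (by simpa using h), map_zero]

section pull

variable (L : (κ → ℂ) →ₗ[ℂ] (ι → ℂ)) (M : (ι → ℂ) →ₗ[ℂ] (κ → ℂ)) (I : Ideal (MvPolynomial ι ℂ))

/-- The ideal of `L⁻¹(cone I)`. -/
noncomputable def pull : Ideal (MvPolynomial κ ℂ) := I.comap (sub M)

/-- Hypotheses: `L`, `M` are mutually inverse on the cone. -/
structure Inv : Prop where
  ML : ∀ z, M (L z) = z
  LM : ∀ x ∈ cone I, L (M x) = x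

variable {L M I} (h : Inv L M I) (hI : I.IsPrime)

include h hI

theorem sub_sub_mem {f : MvPolynomial ι ℂ} : sub M (sub L f) ∈ I ↔ f ∈ I := by
  constructor
  · intro hf
    refine mem_of_cone hI fun x hx => ?_
    have := hx _ hf
    rwa [eval_sub, eval_sub, h.LM x hx] at this
  · intro hf
    refine mem_of_cone hI fun x hx => ?_
    rw [eval_sub, eval_sub, h.LM x hx]
    exact hx f hf

theorem sub_mem_pull {f : MvPolynomial ι ℂ} : sub L f ∈ pull M I ↔ f ∈ I :=
  sub_sub_mem h hI

theorem cone_pull {z : κ → ℂ} : z ∈ cone (pull M I) ↔ L z ∈ cone I := by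
  constructor
  · intro hz f hf
    have := hz _ ((sub_mem_pull h hI).2 hf)
    rwa [eval_sub] at this
  · intro hz g hg
    have := hz _ hg
    rwa [eval_sub, h.ML] at this

theorem N_pull {z : κ → ℂ} : N (pull M I) z = (N I (L z)).map (tr L) := by
  ext v
  rw [mem_N, Submodule.mem_map]
  constructor
  · rintro ⟨g, hg, rfl⟩
    refine ⟨dif (sub M g) (L z), mem_N.2 ⟨_, hg, rfl⟩, ?_⟩
    rw [← dif_sub, sub_comp]
    have : M ∘ₗ L = LinearMap.id := by
      ext1 s
      exact LinearMap.ext fun c => h.ML _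
    rw [this, sub_id]
  · rintro ⟨w, hw, rfl⟩
    obtain ⟨f, hf, rfl⟩ := mem_N.1 hw
    exact ⟨sub L f, (sub_mem_pull h hI).2 hf, dif_sub L f z⟩

theorem ker_tr_le (x : ι → ℂ) : LinearMap.ker (tr L) ≤ N I x := by
  intro v hv
  refine mem_N.2 ⟨lin v, mem_of_cone hI fun y hy => ?_, dif_lin v x⟩
  rw [eval_lin, ← h.LM y hy, ← tr_dot, LinearMap.mem_ker.1 hv, zero_dotProduct]

omit hI in
theorem tr_surjective : Function.Surjective (tr L) := by
  intro v
  refine ⟨tr M v, ?_⟩
  funext s
  rw [tr_apply, tr_dot, h.ML]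
  simp

omit hI in
theorem finrank_ker_tr : Module.finrank ℂ (LinearMap.ker (tr L)) + Fintype.card κ =
    Fintype.card ι := by
  have h1 := LinearMap.finrank_range_add_finrank_ker (tr L)
  rw [LinearMap.range_eq_top.2 (tr_surjective h), finrank_top, Module.finrank_fintype_fun_eq_card,
    Module.finrank_fintype_fun_eq_card] at h1
  omega

theorem finrank_N_pull (z : κ → ℂ) : Module.finrank ℂ (N (pull M I) z) +
    Module.finrank ℂ (LinearMap.ker (tr L)) = Module.finrank ℂ (N I (L z)) := by
  rw [N_pull h hI]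
  have h1 := LinearMap.finrank_range_add_finrank_ker ((tr L).domRestrict (N I (L z)))
  rw [LinearMap.range_domRestrict] at h1
  rw [← h1]
  congr 1
  have h2 : (LinearMap.ker ((tr L).domRestrict (N I (L z)))).map (N I (L z)).subtype =
      LinearMap.ker (tr L) := by
    ext v
    simp only [Submodule.mem_map, LinearMap.mem_ker, LinearMap.domRestrict_apply,
      Submodule.subtype_apply, Subtype.exists, exists_and_right, exists_eq_right]
    exact ⟨fun ⟨_, h⟩ => h, fun hv => ⟨ker_tr_le h hI _ (LinearMap.mem_ker.2 hv), hv⟩⟩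
  rw [← h2, Submodule.finrank_map_subtype_eq]

theorem pull_isPrime : (pull M I).IsPrime := Ideal.comap_isPrime _ _

theorem L_ne_zero {z : κ → ℂ} (hz : z ≠ 0) : L z ≠ 0 := by
  intro h0
  apply hz
  rw [← h.ML z, h0, map_zero]

theorem ringKrullDim_pull : ringKrullDim (MvPolynomial κ ℂ ⧸ pull M I) =
    ringKrullDim (MvPolynomial ι ℂ ⧸ I) := by
  let ψ : MvPolynomial ι ℂ →+* MvPolynomial κ ℂ ⧸ pull M I :=
    (Ideal.Quotient.mk (pull M I)).comp (sub L : MvPolynomial ι ℂ →+* MvPolynomial κ ℂ)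
  have hψ : Function.Surjective ψ := by
    intro g
    obtain ⟨g, rfl⟩ := Ideal.Quotient.mk_surjective g
    refine ⟨sub M g, ?_⟩
    change Ideal.Quotient.mk _ (sub L (sub M g)) = _
    rw [sub_comp]
    have : M ∘ₗ L = LinearMap.id := by
      ext1 s
      exact LinearMap.ext fun c => h.ML _
    rw [this, sub_id]
  have hker : RingHom.ker ψ = I := by
    ext f
    rw [RingHom.mem_ker]
    change Ideal.Quotient.mk _ (sub L f) = 0 ↔ _
    rw [Ideal.Quotient.eq_zero_iff_mem]
    exact sub_mem_pull h hI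
  have e := RingHom.quotientKerEquivOfSurjective hψ
  rw [← ringKrullDim_eq_of_ringEquiv e, hker]

end pull

end H15.Hart
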