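import Pool.Agent.H89.Hart.Defs

set_option linter.unusedSectionVars false

/-!
# Linear substitutions (MP_9a3fdb_ag, job HART-J3)
-/

open MvPolynomial

namespace H15.Hart

open H89.Hart

section lin

variable {κ : Type*} [Fintype κ] [DecidableEq κ]

/-- The linear form with coefficient vector `v`. -/
noncomputable def lin (v : κ → ℂ) : MvPolynomial κ ℂ := ∑ s, C (v s) * X s

theorem eval_lin (v y : κ → ℂ) : eval y (lin v) = v ⬝ᵥ y := by
  simp [lin, dotProduct]

theorem lin_homog (v : κ → ℂ) : (lin v).IsHomogeneous 1 := by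
  refine IsHomogeneous.sum _ _ _ fun s _ => ?_
  simpa using (isHomogeneous_C κ (v s)).mul (isHomogeneous_X ℂ s)

theorem dif_lin (v y : κ → ℂ) : dif (lin v) y = v := by
  funext s
  simp [dif, lin, pderiv_X, Pi.single_apply]

theorem lin_add (v w : κ → ℂ) : lin (v + w) = lin v + lin w := by
  simp [lin, add_mul, Finset.sum_add_distrib]

theorem lin_smul (c : ℂ) (v : κ → ℂ) : lin (c • v) = C c * lin v := by
  simp [lin, Finset.mul_sum, mul_assoc]

theorem lin_zero : lin (0 : κ → ℂ) = 0 := by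
  simp [lin]

theorem lin_single (s : κ) : lin (Pi.single s 1) = X s := by
  simp only [lin]
  rw [Finset.sum_eq_single s]
  · simp
  · intro b _ hb
    simp [Pi.single_apply, hb]
  · intro h
    exact absurd (Finset.mem_univ s) h

end lin

variable {ι κ : Type*} [Fintype ι] [DecidableEq ι] [Fintype κ] [DecidableEq κ]

/-- The coefficient vector of the `i`-th coordinate of `L`. -/
def row (L : (κ → ℂ) →ₗ[ℂ] (ι → ℂ)) (i : ι) : κ → ℂ := fun s => L (Pi.single s 1) i

theorem apply_eq_sum (L : (κ → ℂ) →ₗ[ℂ] (ι → ℂ)) (y : κ → ℂ) :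
    L y = ∑ s, y s • L (Pi.single s 1) := by
  have h : y = ∑ s, y s • (Pi.single s (1 : ℂ) : κ → ℂ) := by
    funext t
    simp [Pi.single_apply]
  conv_lhs => rw [h, map_sum]
  simp only [map_smul]

theorem row_dot (L : (κ → ℂ) →ₗ[ℂ] (ι → ℂ)) (i : ι) (y : κ → ℂ) : row L i ⬝ᵥ y = L y i := by
  rw [apply_eq_sum L y]
  simp only [Finset.sum_apply, Pi.smul_apply, smul_eq_mul, dotProduct, row]
  exact Finset.sum_congr rfl fun s _ => mul_comm _ _

/-- The substitution `f ↦ f ∘ L`. -/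
noncomputable def sub (L : (κ → ℂ) →ₗ[ℂ] (ι → ℂ)) : MvPolynomial ι ℂ →ₐ[ℂ] MvPolynomial κ ℂ :=
  aeval (fun i => lin (row L i))

theorem sub_X (L : (κ → ℂ) →ₗ[ℂ] (ι → ℂ)) (i : ι) : sub L (X i) = lin (row L i) := by
  simp [sub]

theorem eval_sub (L : (κ → ℂ) →ₗ[ℂ] (ι → ℂ)) (f : MvPolynomial ι ℂ) (y : κ → ℂ) :
    eval y (sub L f) = eval (L y) f := by
  induction f using MvPolynomial.induction_on with
  | C a => simp [sub]
  | add p q hp hq => simp only [map_add, hp, hq]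
  | mul_X p i hp => rw [map_mul, map_mul, map_mul, hp, sub_X, eval_lin, row_dot, eval_X]

theorem sub_homog (L : (κ → ℂ) →ₗ[ℂ] (ι → ℂ)) {f : MvPolynomial ι ℂ} {d : ℕ}
    (hf : f.IsHomogeneous d) : (sub L f).IsHomogeneous d := by
  have := hf.aeval (fun i => lin (row L i)) (fun i => lin_homog _)
  rwa [one_mul] at this

theorem sub_comp {μ : Type*} [Fintype μ] [DecidableEq μ] (L : (κ → ℂ) →ₗ[ℂ] (ι → ℂ))
    (M : (ι → ℂ) →ₗ[ℂ] (μ → ℂ)) (f : MvPolynomial μ ℂ) : sub L (sub M f) = sub (M ∘ₗ L) f := by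
  refine MvPolynomial.funext fun y => ?_
  rw [eval_sub, eval_sub, eval_sub]
  rfl

theorem sub_id (f : MvPolynomial ι ℂ) : sub (LinearMap.id : (ι → ℂ) →ₗ[ℂ] (ι → ℂ)) f = f := by
  refine MvPolynomial.funext fun y => ?_
  rw [eval_sub]
  rfl

theorem dif_add (f g : MvPolynomial ι ℂ) (x : ι → ℂ) : dif (f + g) x = dif f x + dif g x := by
  funext i
  simp [dif]

theorem dif_mul (f g : MvPolynomial ι ℂ) (x : ι → ℂ) :
    dif (f * g) x = eval x f • dif g x + eval x g • dif f x := by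
  funext i
  simp [dif, Derivation.leibniz]

/-- The transpose of `L`. -/
noncomputable def tr (L : (κ → ℂ) →ₗ[ℂ] (ι → ℂ)) : (ι → ℂ) →ₗ[ℂ] (κ → ℂ) where
  toFun v := fun s => v ⬝ᵥ L (Pi.single s 1)
  map_add' v w := by funext s; simp [add_dotProduct]
  map_smul' c v := by funext s; simp [smul_dotProduct]

theorem tr_apply (L : (κ → ℂ) →ₗ[ℂ] (ι → ℂ)) (v : ι → ℂ) (s : κ) :
    tr L v s = v ⬝ᵥ L (Pi.single s 1) := rfl

theorem tr_dot (L : (κ → ℂ) →ₗ[ℂ] (ι → ℂ)) (v : ι → ℂ) (y : κ → ℂ) :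
    tr L v ⬝ᵥ y = v ⬝ᵥ L y := by
  rw [apply_eq_sum L y, dotProduct_sum]
  simp only [dotProduct_smul, smul_eq_mul]
  rw [dotProduct]
  exact Finset.sum_congr rfl fun s _ => by rw [tr_apply, mul_comm]

theorem dif_sub (L : (κ → ℂ) →ₗ[ℂ] (ι → ℂ)) (f : MvPolynomial ι ℂ) (y : κ → ℂ) :
    dif (sub L f) y = tr L (dif f (L y)) := by
  induction f using MvPolynomial.induction_on with
  | C a =>
    funext s
    simp [dif, sub, tr, dotProduct]
  | add p q hp hq => rw [map_add, dif_add, dif_add, map_add, hp, hq]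
  | mul_X p i hp =>
    rw [map_mul, dif_mul, dif_mul, hp, map_add, map_smul, map_smul, eval_sub, eval_sub, sub_X,
      dif_lin]
    congr 2
    funext s
    simp [dif, tr, dotProduct, row, pderiv_X, Pi.single_apply]

end H15.Hart
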